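import Mathlib

/-!
Self-interest subtraction games: the discrepancies between the four tie-breaking settings are
bounded.
-/

namespace Pool.Agent.Results.MP_5cfb27_co.Bounded

open Finset

/-- A tie-breaking convention: friendly or antagonistic. -/
inductive Conv : Type
  | F : Conv
  | A : Conv

/-- The legal moves at the heap size `h`. -/
def legal (S : Finset ℕ) (h : ℕ) : Finset ℕ := S.filter fun s => 0 < s ∧ s ≤ h

/-- The largest total the player to move can reach, when the opponent then moves first with the
totals given by `f` (first coordinate: the player who moves first). -/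
def best (S : Finset ℕ) (h : ℕ) (f : ℕ → ℕ × ℕ) : ℕ :=
  (legal S h).sup fun s => s + (f (h - s)).2

/-- The moves which reach the largest total. -/
def optimal (S : Finset ℕ) (h : ℕ) (f : ℕ → ℕ × ℕ) : Finset ℕ :=
  (legal S h).filter fun s => s + (f (h - s)).2 = best S h f

/-- A friendly player maximises and an antagonistic player minimises. -/
noncomputable def pick (c : Conv) (X : Set ℕ) : ℕ :=
  match c with
  | Conv.F => sSup X
  | Conv.A => sInf X

/-- The totals (player to move, other player) at the heap size `h`, when the player to move has
the convention `c`, and `f` gives the totals at smaller heap sizes with the other player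
moving first: among the moves with the largest own total a friendly player maximises and an
antagonistic player minimises the total of the opponent. -/
noncomputable def step (S : Finset ℕ) (h : ℕ) (c : Conv) (f : ℕ → ℕ × ℕ) : ℕ × ℕ :=
  if legal S h = ∅ then (0, 0) else
    (best S h f, pick c {x | ∃ s ∈ optimal S h f, x = (f (h - s)).1})

/-- The totals `out S h c d` of the first and the second player at the heap size `h`, when the
first player has the convention `c` and the second player the convention `d`, by backward
induction. -/
noncomputable def out (S : Finset ℕ) (h : ℕ) (c d : Conv) : ℕ × ℕ :=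
  step S h c fun k => if _hk : k < h then out S k d c else (0, 0)
termination_by h

lemma pick_mem (c : Conv) (X : Set ℕ) (h1 : X.Nonempty) (h2 : X.Finite) : pick c X ∈ X := by
  cases c with
  | F => exact Nat.sSup_mem h1 h2.bddAbove
  | A => exact Nat.sInf_mem h1

lemma best_congr (S : Finset ℕ) (h : ℕ) (f g : ℕ → ℕ × ℕ) (H : ∀ k < h, f k = g k) :
    best S h f = best S h g := by
  unfold best
  refine Finset.sup_congr rfl fun s hs => ?_
  simp only [legal, Finset.mem_filter] at hs
  rw [H (h - s) (by omega)]

lemma optimal_congr (S : Finset ℕ) (h : ℕ) (f g : ℕ → ℕ × ℕ) (H : ∀ k < h, f k = g k) :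
    optimal S h f = optimal S h g := by
  unfold optimal
  rw [best_congr S h f g H]
  refine Finset.filter_congr fun s hs => ?_
  simp only [legal, Finset.mem_filter] at hs
  rw [H (h - s) (by omega)]

lemma set_congr (S : Finset ℕ) (h : ℕ) (f g : ℕ → ℕ × ℕ) (H : ∀ k < h, f k = g k) :
    {x | ∃ s ∈ optimal S h f, x = (f (h - s)).1} =
      {x | ∃ s ∈ optimal S h g, x = (g (h - s)).1} := by
  rw [optimal_congr S h f g H]
  ext x
  simp only [Set.mem_ofPred_eq]
  constructor
  · rintro ⟨s, hs, rfl⟩
    refine ⟨s, hs, ?_⟩
    have hs' := hs
    simp only [optimal, legal, Finset.mem_filter] at hs'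
    rw [H (h - s) (by omega)]
  · rintro ⟨s, hs, rfl⟩
    refine ⟨s, hs, ?_⟩
    have hs' := hs
    simp only [optimal, legal, Finset.mem_filter] at hs'
    rw [H (h - s) (by omega)]

lemma step_congr (S : Finset ℕ) (h : ℕ) (c : Conv) (f g : ℕ → ℕ × ℕ) (H : ∀ k < h, f k = g k) :
    step S h c f = step S h c g := by
  unfold step
  rw [best_congr S h f g H, set_congr S h f g H]

lemma out_eq (S : Finset ℕ) (h : ℕ) (c d : Conv) :
    out S h c d = step S h c fun k => out S k d c := by
  rw [out]
  refine step_congr S h c _ _ fun k hk => ?_
  rw [dif_pos hk]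

/-- The second coordinate is the total after an optimal move. -/
lemma out_spec (S : Finset ℕ) (h : ℕ) (c d : Conv) (hne : legal S h ≠ ∅) :
    (∀ s ∈ legal S h, s + (out S (h - s) d c).2 ≤ (out S h c d).1) ∧
    ∃ s ∈ legal S h, (out S h c d).1 = s + (out S (h - s) d c).2 ∧
      (out S h c d).2 = (out S (h - s) d c).1 := by
  have hb : (out S h c d).1 = best S h fun k => out S k d c := by
    rw [out_eq]
    simp only [step, if_neg hne]
  have hne' : (legal S h).Nonempty := Finset.nonempty_iff_ne_empty.2 hne
  have hopt : (optimal S h fun k => out S k d c).Nonempty := by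
    obtain ⟨s, hs, hs'⟩ := Finset.exists_mem_eq_sup (legal S h) hne'
      (fun s => s + (out S (h - s) d c).2)
    exact ⟨s, by
      simp only [optimal, Finset.mem_filter]
      exact ⟨hs, hs'.symm⟩⟩
  constructor
  · intro s hs
    rw [hb]
    exact Finset.le_sup (f := fun s => s + (out S (h - s) d c).2) hs
  · set X : Set ℕ := {x | ∃ s ∈ optimal S h (fun k => out S k d c), x = (out S (h - s) d c).1}
      with hX
    have hXne : X.Nonempty := by
      obtain ⟨s, hs⟩ := hopt
      exact ⟨_, s, hs, rfl⟩
    have hXfin : X.Finite := by
      refine ((optimal S h (fun k => out S k d c)).finite_toSet.image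
        (fun s => (out S (h - s) d c).1)).subset ?_
      rintro x ⟨s, hs, rfl⟩
      exact ⟨s, hs, rfl⟩
    have h2 : (out S h c d).2 ∈ X := by
      have e : (out S h c d).2 = pick c X := by
        rw [out_eq]
        simp only [step, if_neg hne]
        rfl
      rw [e]
      exact pick_mem c X hXne hXfin
    obtain ⟨s, hs, hs2⟩ := h2
    simp only [optimal, Finset.mem_filter] at hs
    exact ⟨s, hs.1, by rw [hb]; exact hs.2.symm, hs2⟩

lemma out_zero (S : Finset ℕ) (h : ℕ) (c d : Conv) (he : legal S h = ∅) :
    out S h c d = (0, 0) := by
  rw [out_eq]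
  simp only [step, if_pos he]

/-- The two players together get at most the whole heap. -/
lemma sum_le (S : Finset ℕ) : ∀ (h : ℕ) (c d : Conv), (out S h c d).1 + (out S h c d).2 ≤ h := by
  intro h
  induction h using Nat.strong_induction_on with
  | _ h ih =>
    intro c d
    by_cases he : legal S h = ∅
    · rw [out_zero S h c d he]
      simp
    · obtain ⟨s, hs, h1, h2⟩ := (out_spec S h c d he).2
      simp only [legal, Finset.mem_filter] at hs
      have := ih (h - s) (by omega) d c
      omega

/-- The player to move gets at least half of the heap, up to a constant. -/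
lemma lower (S : Finset ℕ) (m : ℕ) (hm : m ∈ S) (hm0 : 0 < m) (hmax : ∀ s ∈ S, s ≤ m) :
    ∀ (h : ℕ) (c d : Conv), h ≤ 2 * (out S h c d).1 + m := by
  intro h
  induction h using Nat.strong_induction_on with
  | _ h ih =>
    intro c d
    rcases Nat.lt_or_ge h m with hlt | hge
    · omega
    · have hleg : m ∈ legal S h := by
        simp only [legal, Finset.mem_filter]
        exact ⟨hm, hm0, hge⟩
      have hne : legal S h ≠ ∅ := Finset.ne_empty_of_mem hleg
      have h1 := (out_spec S h c d hne).1 m hleg
      by_cases he : legal S (h - m) = ∅
      · have : h - m < m := by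
          by_contra hcon
          push Not at hcon
          have : m ∈ legal S (h - m) := by
            simp only [legal, Finset.mem_filter]
            exact ⟨hm, hm0, hcon⟩
          rw [he] at this
          simp at this
        omega
      · obtain ⟨s, hs, h2, h3⟩ := (out_spec S (h - m) d c he).2
        simp only [legal, Finset.mem_filter] at hs
        have h4 := ih (h - m - s) (by omega) c d
        have h5 := hmax s hs.1
        omega

/-- The other player gets at least half of the heap, up to a constant. -/
lemma lower2 (S : Finset ℕ) (m : ℕ) (hm : m ∈ S) (hm0 : 0 < m) (hmax : ∀ s ∈ S, s ≤ m)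
    (h : ℕ) (c d : Conv) : h ≤ 2 * (out S h c d).2 + 2 * m := by
  by_cases he : legal S h = ∅
  · have : h < m := by
      by_contra hcon
      push Not at hcon
      have : m ∈ legal S h := by
        simp only [legal, Finset.mem_filter]
        exact ⟨hm, hm0, hcon⟩
      rw [he] at this
      simp at this
    omega
  · obtain ⟨s, hs, h2, h3⟩ := (out_spec S h c d he).2
    simp only [legal, Finset.mem_filter] at hs
    have h4 := lower S m hm hm0 hmax (h - s) d c
    have h5 := hmax s hs.1
    omega

/-- For every finite nonempty subtraction set with largest element `m`, any two settings and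
each player, the totals differ by at most `2 * m`, for every heap size. -/
theorem result : ∀ (S : Finset ℕ) (hS : S.Nonempty), (∀ s ∈ S, 0 < s) →
    ∀ (c d c' d' : Conv) (h : ℕ),
      |((out S h c' d').1 : ℤ) - ((out S h c d).1 : ℤ)| ≤ 2 * (S.max' hS : ℤ) ∧
      |((out S h c' d').2 : ℤ) - ((out S h c d).2 : ℤ)| ≤ 2 * (S.max' hS : ℤ) := by
  intro S hS hpos c d c' d' h
  set m := S.max' hS with hmdef
  have hm : m ∈ S := S.max'_mem hS
  have hmax : ∀ s ∈ S, s ≤ m := fun s hs => S.le_max' s hs
  have hm0 := hpos m hm
  have a1 := lower S m hm hm0 hmax h c d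
  have a2 := lower2 S m hm hm0 hmax h c d
  have a3 := sum_le S h c d
  have b1 := lower S m hm hm0 hmax h c' d'
  have b2 := lower2 S m hm hm0 hmax h c' d'
  have b3 := sum_le S h c' d'
  constructor
  · rw [abs_le]
    constructor <;> omega
  · rw [abs_le]
    constructor <;> omega

end Pool.Agent.Results.MP_5cfb27_co.Bounded
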